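import Pool.Agent.Y320.CM.Stm

set_option autoImplicit false
open Filter Topology

namespace Pool.Agent.Y161.CM.RepA

open Pool.Agent.Y320.CM

/-! Job CM-REPA: linear extension of the action. -/

theorem sq_sum (p : Sph) : p.1 0 ^ 2 + p.1 1 ^ 2 + p.1 2 ^ 2 = 1 := by
  have h : ‖p.1‖ = 1 := by simpa using p.2
  have h2 : ‖p.1‖ ^ 2 = ∑ i, ‖p.1 i‖ ^ 2 := EuclideanSpace.norm_sq_eq p.1
  rw [h, Fin.sum_univ_three] at h2
  simp only [Real.norm_eq_abs, sq_abs] at h2
  linarith

theorem dist_sq (p q : Sph) :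
    dist p q ^ 2 = (p.1 0 - q.1 0) ^ 2 + (p.1 1 - q.1 1) ^ 2 + (p.1 2 - q.1 2) ^ 2 := by
  have h : dist p q = dist p.1 q.1 := rfl
  rw [h, EuclideanSpace.dist_eq, Real.sq_sqrt (by positivity), Fin.sum_univ_three]
  simp only [Real.dist_eq, sq_abs]

theorem BN (p q : Sph) : B (N p) (N q) = - dist p q ^ 2 / 2 := by
  have h1 := sq_sum p
  have h2 := sq_sum q
  rw [dist_sq]
  simp only [B, N, Matrix.cons_val_zero, Matrix.cons_val_one, Matrix.cons_val]
  nlinarith

/-- the vector `e i` as a point of the sphere -/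
noncomputable def pe (i : Fin 3) : Sph := ⟨EuclideanSpace.single i 1, by simp⟩

noncomputable def ne (i : Fin 3) : Sph := ⟨-EuclideanSpace.single i 1, by simp⟩

/-- the Lorentz form as a bilinear map -/
noncomputable def BL : V →ₗ[ℝ] V →ₗ[ℝ] ℝ :=
  LinearMap.mk₂ ℝ B (by intro a b c; simp only [B, Pi.add_apply]; ring)
    (by intro r a b; simp only [B, Pi.smul_apply, smul_eq_mul]; ring)
    (by intro a b c; simp only [B, Pi.add_apply]; ring)
    (by intro r a b; simp only [B, Pi.smul_apply, smul_eq_mul]; ring)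

theorem BL_apply (v w : V) : BL v w = B v w := rfl

theorem nondeg (w : V) (h : ∀ p : Sph, B w (N p) = 0) : w = 0 := by
  have h0 := h (pe 0)
  have h0' := h (ne 0)
  have h1 := h (pe 1)
  have h2 := h (pe 2)
  simp [B, N, pe, ne] at h0 h0' h1 h2
  funext i
  fin_cases i
  · show w 0 = 0
    linarith
  · show w 1 = 0
    linarith
  · show w 2 = 0
    linarith
  · show w 3 = 0
    linarith

theorem span_N : Submodule.span ℝ (Set.range N) = ⊤ := by
  rw [eq_top_iff]
  intro v _
  have e : v = ((v 0 + v 1) / 2) • N (pe 0) + ((v 0 - v 1) / 2) • N (ne 0) +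
      (v 2 / 2) • N (pe 1) - (v 2 / 2) • N (ne 1) +
      (v 3 / 2) • N (pe 2) - (v 3 / 2) • N (ne 2) := by
    funext i
    fin_cases i
    · simp [N, pe, ne]; ring
    · simp [N, pe, ne]; ring
    · simp [N, pe, ne]
    · simp [N, pe, ne]
  rw [e]
  have hm : ∀ p : Sph, N p ∈ Submodule.span ℝ (Set.range N) := fun p =>
    Submodule.subset_span ⟨p, rfl⟩
  exact Submodule.sub_mem _ (Submodule.add_mem _ (Submodule.sub_mem _ (Submodule.add_mem _
    (Submodule.add_mem _ (Submodule.smul_mem _ _ (hm _)) (Submodule.smul_mem _ _ (hm _)))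
    (Submodule.smul_mem _ _ (hm _))) (Submodule.smul_mem _ _ (hm _)))
    (Submodule.smul_mem _ _ (hm _))) (Submodule.smul_mem _ _ (hm _))

instance inf : Infinite Sph := by
  have hc : IsConnected (Metric.sphere (0 : EuclideanSpace ℝ (Fin 3)) 1) := by
    refine isConnected_sphere ?_ 0 zero_le_one
    rw [rank_eq_card_basis (EuclideanSpace.basisFun (Fin 3) ℝ).toBasis]
    simp
  have hn : (Metric.sphere (0 : EuclideanSpace ℝ (Fin 3)) 1).Nontrivial := by
    refine ⟨(pe 0).1, (pe 0).2, (pe 1).1, (pe 1).2, ?_⟩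
    intro h
    have := congrFun (congrArg (fun x : EuclideanSpace ℝ (Fin 3) => (x : Fin 3 → ℝ)) h) 0
    simp [pe] at this
  exact (hc.isPreconnected.infinite_of_nontrivial hn).to_subtype

theorem uniq (l m : Sph → ℝ) (hl : ∀ a, 0 < l a) (hm : ∀ a, 0 < m a)
    (h : ∀ a b, a ≠ b → l a * l b = m a * m b) (a : Sph) : l a = m a := by
  classical
  obtain ⟨b, hb⟩ := Infinite.exists_notMem_finset ({a} : Finset Sph)
  obtain ⟨c, hc⟩ := Infinite.exists_notMem_finset ({a, b} : Finset Sph)
  simp only [Finset.mem_singleton, Finset.mem_insert, not_or] at hb hc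
  have h1 := h a b (Ne.symm hb)
  have h2 := h a c (Ne.symm hc.1)
  have h3 := h b c (Ne.symm hc.2)
  have h4 : l a ^ 2 * (l b * l c) = m a ^ 2 * (l b * l c) := by
    calc l a ^ 2 * (l b * l c) = (l a * l b) * (l a * l c) := by ring
      _ = (m a * m b) * (m a * m c) := by rw [h1, h2]
      _ = m a ^ 2 * (m b * m c) := by ring
      _ = m a ^ 2 * (l b * l c) := by rw [h3]
  have h5 : l a ^ 2 = m a ^ 2 :=
    mul_right_cancel₀ (mul_pos (hl b) (hl c)).ne' h4
  exact (sq_eq_sq₀ (hl a).le (hm a).le).mp h5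

theorem main (hS : S_SCALE) (hL : S_LIN) : S_REPA := by
  classical
  intro G _ τ h1 hmul F hF hInv
  have hτinj : ∀ g, Function.Injective (τ g) := by
    intro g x y hxy
    have := congrArg (τ g⁻¹) hxy
    rwa [← hmul, ← hmul, inv_mul_cancel, h1, h1] at this
  have hτsurj : ∀ g, Function.Surjective (τ g) := by
    intro g x
    exact ⟨τ g⁻¹ x, by rw [← hmul, mul_inv_cancel, h1]⟩
  have hpos : ∀ (g : G) (a b : Sph), a ≠ b → 0 < dist (F (τ g a)) (F (τ g b)) := by
    intro g a b hab
    exact dist_pos.mpr fun h => hab (hτinj g (hF.1 h))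
  have hpos1 : ∀ (a b : Sph), a ≠ b → 0 < dist (F a) (F b) := by
    intro a b hab
    exact dist_pos.mpr fun h => hab (hF.1 h)
  have hex : ∀ g : G, ∃ l : Sph → ℝ, (∀ a, 0 < l a) ∧ ∀ a b, a ≠ b →
      dist (F a) (F b) ^ 2 = l a * l b * dist (F (τ g a)) (F (τ g b)) ^ 2 := by
    intro g
    refine hS Sph (fun a b => dist (F a) (F b) ^ 2)
      (fun a b => dist (F (τ g a)) (F (τ g b)) ^ 2) ?_ ?_ ?_ ?_ ?_
    · intro a b
      simp only [dist_comm]
    · intro a b
      simp only [dist_comm]
    · intro a b hab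
      exact pow_pos (hpos1 a b hab) 2
    · intro a b hab
      exact pow_pos (hpos g a b hab) 2
    · intro a b c e hd
      have := hInv g a b c e hd
      unfold cr at this
      have h2 := congrArg (fun x => x ^ 2) this
      simp only [div_pow, mul_pow] at h2
      exact h2.symm
  choose l hl0 hl using hex
  have hl' : ∀ g a b, dist (F a) (F b) ^ 2 = l g a * l g b * dist (F (τ g a)) (F (τ g b)) ^ 2 := by
    intro g a b
    by_cases hab : a = b
    · subst hab; simp
    · exact hl g a b hab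
  obtain ⟨S, _, hS2⟩ := hL Sph (fun a => N (F a))
  have hM : ∀ g a, Finsupp.linearCombination ℝ (fun a => l g a • N (F (τ g a))) (S (N (F a))) =
      l g a • N (F (τ g a)) := by
    intro g
    refine hS2 (fun a => l g a • N (F (τ g a))) ?_ ?_
    · intro a b
      show BL (l g a • N (F (τ g a))) (l g b • N (F (τ g b))) = B (N (F a)) (N (F b))
      rw [map_smul, map_smul, LinearMap.smul_apply, BL_apply, BN, BN, hl' g a b]
      simp only [smul_eq_mul]
      ring
    · intro w _ hw
      refine nondeg w fun p => ?_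
      obtain ⟨x, rfl⟩ := hF.2 p
      obtain ⟨a, rfl⟩ := hτsurj g x
      have h3 : BL w (l g a • N (F (τ g a))) = 0 := hw a
      rw [map_smul, smul_eq_mul] at h3
      exact (mul_eq_zero.mp h3).resolve_left (hl0 g a).ne'
  let M : G → V →ₗ[ℝ] V := fun g =>
    (Finsupp.linearCombination ℝ (fun a => l g a • N (F (τ g a)))) ∘ₗ S
  have hMa : ∀ g a, M g (N (F a)) = l g a • N (F (τ g a)) := hM
  have hrange : Set.range (fun a => N (F a)) = Set.range N := by
    ext v
    constructor
    · rintro ⟨a, rfl⟩; exact ⟨F a, rfl⟩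
    · rintro ⟨p, rfl⟩
      obtain ⟨a, rfl⟩ := hF.2 p
      exact ⟨a, rfl⟩
  have hspan : Submodule.span ℝ (Set.range fun a => N (F a)) = ⊤ := by rw [hrange]; exact span_N
  have hext : ∀ f f' : V →ₗ[ℝ] V, (∀ a, f (N (F a)) = f' (N (F a))) → f = f' := by
    intro f f' h
    exact LinearMap.ext_on_range hspan h
  have hextR : ∀ f f' : V →ₗ[ℝ] ℝ, (∀ a, f (N (F a)) = f' (N (F a))) → f = f' := by
    intro f f' h
    exact LinearMap.ext_on_range hspan h
  have hone : M 1 = LinearMap.id := by
    refine hext _ _ fun a => ?_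
    rw [hMa, h1, LinearMap.id_apply]
    have : l 1 a = (fun _ => (1 : ℝ)) a := by
      refine uniq (l 1) (fun _ => 1) (hl0 1) (fun _ => one_pos) ?_ a
      intro a b hab
      have h3 := hl 1 a b hab
      rw [h1, h1] at h3
      have h4 := pow_pos (hpos1 a b hab) 2
      have h5 : 1 * dist (F a) (F b) ^ 2 = l 1 a * l 1 b * dist (F a) (F b) ^ 2 := by
        rw [one_mul]; exact h3
      have h6 := mul_right_cancel₀ h4.ne' h5
      rw [← h6]; norm_num
    rw [this, one_smul]
  have hmulM : ∀ g h, M (g * h) = M g ∘ₗ M h := by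
    intro g h
    refine hext _ _ fun a => ?_
    show M (g * h) (N (F a)) = M g (M h (N (F a)))
    rw [hMa, hMa, map_smul, hMa, hmul, smul_smul]
    congr 1
    refine uniq (l (g * h)) (fun a => l h a * l g (τ h a)) (hl0 _)
      (fun a => mul_pos (hl0 _ _) (hl0 _ _)) ?_ a
    intro a b hab
    have h3 := hl (g * h) a b hab
    have h4 := hl h a b hab
    have h5 := hl' g (τ h a) (τ h b)
    rw [h5] at h4
    rw [hmul, hmul] at h3
    have h6 : 0 < dist (F (τ g (τ h a))) (F (τ g (τ h b))) ^ 2 := by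
      have := hpos (g * h) a b hab
      rw [hmul, hmul] at this
      exact pow_pos this 2
    apply mul_right_cancel₀ h6.ne'
    rw [← h3, h4]
    ring
  refine ⟨{ toFun := fun g => LinearMap.toMatrix' (M g)
            map_one' := by rw [hone, LinearMap.toMatrix'_id]
            map_mul' := by intro g h; rw [hmulM, LinearMap.toMatrix'_comp] }, l, hl0, ?_, ?_⟩
  · intro g a
    show Matrix.mulVec (LinearMap.toMatrix' (M g)) (N (F a)) = _
    rw [LinearMap.toMatrix'_mulVec]
    exact hMa g a
  · intro g v w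
    show B (Matrix.mulVec (LinearMap.toMatrix' (M g)) v)
      (Matrix.mulVec (LinearMap.toMatrix' (M g)) w) = B v w
    rw [LinearMap.toMatrix'_mulVec, LinearMap.toMatrix'_mulVec]
    have k1 : ∀ b, ∀ v, B (M g v) (M g (N (F b))) = B v (N (F b)) := by
      intro b
      have : (BL.flip (M g (N (F b)))) ∘ₗ (M g) = BL.flip (N (F b)) := by
        refine hextR _ _ fun a => ?_
        show B (M g (N (F a))) (M g (N (F b))) = B (N (F a)) (N (F b))
        rw [hMa, hMa]
        show BL (l g a • N (F (τ g a))) (l g b • N (F (τ g b))) = B (N (F a)) (N (F b))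
        rw [map_smul, map_smul, LinearMap.smul_apply, BL_apply, BN, BN, hl' g a b]
        simp only [smul_eq_mul]
        ring
      intro v
      exact LinearMap.congr_fun this v
    have k2 : (BL (M g v)) ∘ₗ (M g) = BL v := by
      refine hextR _ _ fun b => ?_
      exact k1 b v
    exact LinearMap.congr_fun k2 w

end Pool.Agent.Y161.CM.RepA
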